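import Pool.Agent.Helper22.TW.Stmts

set_option autoImplicit false

/-!
# Module ALLP: the value is `∞` at all places over all primes
-/

namespace Pool.Agent.Helper22.TW

open Pool.Agent.Helper14.BSC Polynomial

section

variable {k Ω : Type} [Field k] [Field Ω] [Algebra k Ω] {D : Sec k Ω} {p : ℕ} [Fact p.Prime]
  {σ : k →+* ℂ_[p]}

/-- the value of `P` at `x` is the finite number `z` -/
def allp_V (P : Place D p σ) (x : LL D) (z : ℂ_[p]) : Prop := ∃ h : x ∈ P.C, P.φ ⟨x, h⟩ = z

theorem allp_const (P : Place D p σ) (c : k) : allp_V P (algebraMap k (LL D) c) (σ c) := P.base c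

theorem allp_one (P : Place D p σ) : allp_V P 1 1 := ⟨P.C.one_mem, map_one P.φ⟩

theorem allp_sub {P : Place D p σ} {x y : LL D} {z w : ℂ_[p]} (h1 : allp_V P x z)
    (h2 : allp_V P y w) : allp_V P (x - y) (z - w) := by
  obtain ⟨h1, e1⟩ := h1
  obtain ⟨h2, e2⟩ := h2
  refine ⟨P.C.toSubring.sub_mem h1 h2, ?_⟩
  rw [← e1, ← e2, ← map_sub]
  rfl

theorem allp_mul {P : Place D p σ} {x y : LL D} {z w : ℂ_[p]} (h1 : allp_V P x z)
    (h2 : allp_V P y w) : allp_V P (x * y) (z * w) := by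
  obtain ⟨h1, e1⟩ := h1
  obtain ⟨h2, e2⟩ := h2
  refine ⟨P.C.toSubring.mul_mem h1 h2, ?_⟩
  rw [← e1, ← e2, ← map_mul]
  rfl

theorem allp_inv {P : Place D p σ} {x : LL D} {z : ℂ_[p]} (h1 : allp_V P x z) (hz : z ≠ 0) :
    allp_V P x⁻¹ z⁻¹ := by
  obtain ⟨h1, e1⟩ := h1
  have h2 : ¬ (x = 0 ∨ x⁻¹ ∉ P.C) := by
    intro h
    have := (P.ker ⟨x, h1⟩).2 h
    exact hz (e1 ▸ this)
  push Not at h2
  obtain ⟨h3, h4⟩ := h2
  refine ⟨h4, ?_⟩
  have h5 : P.φ ⟨x⁻¹, h4⟩ * P.φ ⟨x, h1⟩ = 1 := by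
    rw [← map_mul, ← map_one P.φ]
    congr 1
    exact Subtype.ext (inv_mul_cancel₀ h3)
  rw [e1] at h5
  exact eq_inv_of_mul_eq_one_left h5

theorem allp_div {P : Place D p σ} {x y : LL D} {z w : ℂ_[p]} (h1 : allp_V P x z)
    (h2 : allp_V P y w) (hw : w ≠ 0) : allp_V P (x / y) (z / w) := by
  rw [div_eq_mul_inv, div_eq_mul_inv]
  exact allp_mul h1 (allp_inv h2 hw)

theorem allp_inf {P : Place D p σ} {x : LL D} (h : x ∉ P.C) : allp_V P x⁻¹ 0 := by
  have h1 : x⁻¹ ∈ P.C := (P.C.mem_or_inv_mem x).resolve_left h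
  refine ⟨h1, (P.ker ⟨x⁻¹, h1⟩).2 (Or.inr ?_)⟩
  show (x⁻¹)⁻¹ ∉ P.C
  rwa [inv_inv]

end

/-- two places over embeddings which agree on `F` have the same value at a function with constant
classes -/
theorem allp_key (hPL : ST_PL) (hLIM : ST_LIM) {F k Ω : Type} [Field F] [Field k] [Field Ω]
    [Algebra F k] [Algebra k Ω] [CharZero k] [IsAlgClosed Ω] {D : Sec k Ω} {p : ℕ} [Fact p.Prime]
    {E : IntermediateField ℚ_[p] ℂ_[p]} (hE : FiniteDimensional ℚ_[p] E) {σ σ' : k →+* ℂ_[p]}
    (hσ : ∀ x, σ x ∈ E) (hσ' : ∀ x, σ' x ∈ E)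
    (hF : ∀ a : F, σ (algebraMap F k a) = σ' (algebraMap F k a)) {P : Place D p σ}
    {P' : Place D p σ'} {u : LL D}
    (hu : ∀ n : ℕ, 0 < n → ∃ (γ : F) (g : LL D), γ ≠ 0 ∧
      u = algebraMap k (LL D) (algebraMap F k γ) * g ^ n) {z z' : ℂ_[p]}
    (h : allp_V P u z) (h' : allp_V P' u z') (hz : z ≠ 0) (hz' : z' ≠ 0) : z = z' := by
  obtain ⟨h1, e1⟩ := h
  obtain ⟨h2, e2⟩ := h'
  have key : z / z' = 1 := by
    refine hLIM p E hE (z / z') (div_ne_zero hz hz') fun n hn δ hδ => ?_
    obtain ⟨γ, g, hγ, hg⟩ := hu n hn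
    obtain ⟨w, hw, hw0, e3⟩ := (hPL k Ω D p σ E hE hσ P).2 ⟨u, h1⟩ (by rw [e1]; exact hz) n hn
      (algebraMap F k γ) g hg
    obtain ⟨w', hw', hw0', e4⟩ := (hPL k Ω D p σ' E hE hσ' P').2 ⟨u, h2⟩
      (by rw [e2]; exact hz') n hn (algebraMap F k γ) g hg
    refine ⟨w' / w, E.div_mem hw' hw, ?_⟩
    rw [hF γ, e4, e1, e2] at e3
    have h5 : (w' / w) ^ n = z / z' := by
      rw [div_pow, div_eq_div_iff (pow_ne_zero n hw0) hz']
      linear_combination e3
    rw [h5, sub_self, norm_zero]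
    exact hδ
  rw [div_eq_one_iff_eq hz'] at key
  exact key

/-- values of `1 - 1/(af)` and of their quotient -/
theorem allp_U {k Ω : Type} [Field k] [Field Ω] [Algebra k Ω] {D : Sec k Ω} {p : ℕ}
    [Fact p.Prime] {σ : k →+* ℂ_[p]} {P : Place D p σ} {f : LL D} {μ : ℂ_[p]}
    (h : allp_V P f μ) (hμ : μ ≠ 0) (a : k) (ha : a ≠ 0) :
    allp_V P (1 - (algebraMap k (LL D) a * f)⁻¹) (1 - (σ a * μ)⁻¹) :=
  allp_sub (allp_one P) (allp_inv (allp_mul (allp_const P a) h)
    (mul_ne_zero ((map_ne_zero σ).2 ha) hμ))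

theorem allp_U0 {k Ω : Type} [Field k] [Field Ω] [Algebra k Ω] {D : Sec k Ω} {p : ℕ}
    [Fact p.Prime] {σ : k →+* ℂ_[p]} {P : Place D p σ} {f : LL D}
    (h : f ∉ P.C) (a : k) (ha : a ≠ 0) :
    allp_V P (1 - (algebraMap k (LL D) a * f)⁻¹) 1 := by
  have h1 := allp_sub (allp_one P) (allp_mul (allp_inv (allp_const P a)
    ((map_ne_zero σ).2 ha)) (allp_inf h))
  rw [mul_zero, sub_zero] at h1
  rwa [mul_inv]

theorem allp_Q {k Ω : Type} [Field k] [Field Ω] [Algebra k Ω] {D : Sec k Ω} {p : ℕ}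
    [Fact p.Prime] {σ : k →+* ℂ_[p]} {P : Place D p σ} {f : LL D}
    (h : allp_V P f 0) (hf : f ≠ 0) (t : k) (ht : t ≠ 0) :
    allp_V P ((1 - (algebraMap k (LL D) 1 * f)⁻¹) / (1 - (algebraMap k (LL D) t * f)⁻¹)) (σ t) := by
  have ht' : algebraMap k (LL D) t ≠ 0 := (map_ne_zero (algebraMap k (LL D))).2 ht
  have h1 : allp_V P (algebraMap k (LL D) t * f - 1) (-1) := by
    have := allp_sub (allp_mul (allp_const P t) h) (allp_one P)
    rwa [mul_zero, zero_sub] at this
  have h2 : algebraMap k (LL D) t * f - 1 ≠ 0 := by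
    intro h0
    rw [h0] at h1
    obtain ⟨h3, h4⟩ := h1
    have h5 : P.φ ⟨0, h3⟩ = 0 := map_zero P.φ
    rw [h5] at h4
    exact one_ne_zero (neg_eq_zero.1 h4.symm)
  have h3 := allp_div (allp_mul (allp_const P t) (allp_sub h (allp_one P))) h1
    (neg_ne_zero.2 one_ne_zero)
  have e1 : σ t * (0 - 1) / -1 = σ t := by ring
  have e2 : (1 - (algebraMap k (LL D) 1 * f)⁻¹) / (1 - (algebraMap k (LL D) t * f)⁻¹) =
      algebraMap k (LL D) t * (f - 1) / (algebraMap k (LL D) t * f - 1) := by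
    have h4 : 1 - (algebraMap k (LL D) t * f)⁻¹ =
        (algebraMap k (LL D) t * f - 1) / (algebraMap k (LL D) t * f) := by
      field_simp
    rw [h4, map_one, one_mul]
    field_simp
  rw [e2]
  rwa [e1] at h3

/-- five distinct transcendental elements -/
theorem allp_five (hTRA : ST_TRA) {F : Type} [Field F] [CharZero F]
    (hFG : (⊤ : IntermediateField ℚ F).FG) {p : ℕ} [Fact p.Prime] (σ₀ : F →+* ℂ_[p])
    (E : IntermediateField ℚ_[p] ℂ_[p]) :
    ∀ n : ℕ, ∃ τ : Fin n → ℂ_[p], Function.Injective τ ∧ ∀ i, τ i ∈ E ∧ TrO σ₀ (τ i) := by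
  intro n
  induction n with
  | zero => exact ⟨fun _ => 0, fun i => i.elim0, fun i => i.elim0⟩
  | succ n ih =>
    obtain ⟨τ, h1, h2⟩ := ih
    obtain ⟨x, hx, hx1, -, hx2⟩ := hTRA F hFG p σ₀ E 0 1 E.zero_mem E.one_mem one_ne_zero
      (Set.range τ) (Set.countable_range τ)
    refine ⟨Fin.cons x τ, ?_, ?_⟩
    · rw [Fin.cons_injective_iff]
      exact ⟨hx1, h1⟩
    · intro i
      refine Fin.cases ?_ (fun i => ?_) i
      · exact ⟨hx, hx2⟩
      · exact h2 i

theorem st_ALLP (hPL : ST_PL) (hTRA : ST_TRA) (hEXK : ST_EXK) (hLIM : ST_LIM) (hRK : ST_RK) :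
    ST_ALLP := by
  intro F k Ω _ _ _ _ _ _ _ _ _ _ _ t hgen hFG D f hfc hcl p _ σ hfin P hf
  obtain ⟨E, hE, hσ⟩ := hfin
  have hf0 : f ≠ 0 := by
    intro h
    exact hfc 0 (by rw [h, map_zero])
  have ht0 : t ≠ 0 := by
    intro h
    have := hgen.1
    rw [h] at this
    exact this (isAlgebraic_zero)
  have ht1 : t ≠ 1 := by
    intro h
    have := hgen.1
    rw [h] at this
    exact this (isAlgebraic_one)
  -- the functions with constant classes
  have hU : ∀ a : k, a ≠ 0 → ∀ n : ℕ, 0 < n → ∃ (γ : F) (g : LL D), γ ≠ 0 ∧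
      1 - (algebraMap k (LL D) a * f)⁻¹ = algebraMap k (LL D) (algebraMap F k γ) * g ^ n := hcl
  have hQ : ∀ n : ℕ, 0 < n → ∃ (γ : F) (g : LL D), γ ≠ 0 ∧
      (1 - (algebraMap k (LL D) 1 * f)⁻¹) / (1 - (algebraMap k (LL D) t * f)⁻¹) =
        algebraMap k (LL D) (algebraMap F k γ) * g ^ n := by
    intro n hn
    obtain ⟨γ, g, hγ, e⟩ := hcl 1 one_ne_zero n hn
    obtain ⟨γ', g', hγ', e'⟩ := hcl t ht0 n hn
    refine ⟨γ / γ', g / g', div_ne_zero hγ hγ', ?_⟩
    rw [e, e', map_div₀, map_div₀, div_pow, div_mul_div_comm]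
  set σ₀ : F →+* ℂ_[p] := σ.comp (algebraMap F k) with hσ₀
  -- there is an embedding with value infinity
  have step1 : ∃ (σ' : k →+* ℂ_[p]) (P' : Place D p σ'), (∀ x, σ' x ∈ E) ∧
      (∀ a : F, σ (algebraMap F k a) = σ' (algebraMap F k a)) ∧ f ∉ P'.C := by
    by_contra hno
    push Not at hno
    obtain ⟨τ, hinj, hτ⟩ := allp_five hTRA hFG σ₀ E 5
    have h1 : ∀ i, ∃ (σ' : k →+* ℂ_[p]) (P' : Place D p σ') (μ : ℂ_[p]), (∀ x, σ' x ∈ E) ∧
        (∀ a : F, σ (algebraMap F k a) = σ' (algebraMap F k a)) ∧ σ' t = τ i ∧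
        allp_V P' f μ := by
      intro i
      obtain ⟨σ', ha, hb⟩ := (hEXK F k t hgen p E).2.2 σ₀ (τ i) (hτ i).2
      have hE' : ∀ x, σ' x ∈ E := (hEXK F k t hgen p E).1 σ'
        (fun a => by rw [ha a]; exact hσ _) (by rw [hb]; exact (hτ i).1)
      obtain ⟨P', -⟩ := hRK k Ω D p σ' E hE hE'
      have ha' : ∀ a : F, σ (algebraMap F k a) = σ' (algebraMap F k a) := fun a => (ha a).symm
      exact ⟨σ', P', P'.φ ⟨f, hno σ' P' hE' ha'⟩, hE', ha', hb, ⟨hno σ' P' hE' ha', rfl⟩⟩
    choose s Q μ hs hsF hst hV using h1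
    have hτ0 : ∀ i, τ i ≠ 0 := by
      intro i h
      have := hst i
      rw [h] at this
      exact ht0 ((map_eq_zero (s i)).1 this)
    have hτ1 : ∀ i, τ i ≠ 1 := by
      intro i h
      have := hst i
      rw [h] at this
      exact ht1 ((s i).injective (by rw [this, map_one]))
    have hFF : ∀ i j, ∀ a : F, s i (algebraMap F k a) = s j (algebraMap F k a) := by
      intro i j a
      rw [← hsF i a, ← hsF j a]
    -- pairwise statements
    have hA : ∀ i j, μ i = 0 → μ j = 0 → i = j := by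
      intro i j hi hj
      apply hinj
      have v1 := hV i
      have v2 := hV j
      rw [hi] at v1
      rw [hj] at v2
      have w1 := allp_Q v1 hf0 t ht0
      have w2 := allp_Q v2 hf0 t ht0
      rw [hst i] at w1
      rw [hst j] at w2
      exact allp_key hPL hLIM hE (hs i) (hs j) (hFF i j) hQ w1 w2 (hτ0 i) (hτ0 j)
    have hB : ∀ i j, μ i ≠ 0 → μ j ≠ 0 → μ i ≠ 1 → μ j ≠ 1 → μ i = μ j := by
      intro i j hi hj hi1 hj1
      have w1 := allp_U (hV i) hi 1 one_ne_zero
      have w2 := allp_U (hV j) hj 1 one_ne_zero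
      rw [map_one (s i), one_mul (μ i)] at w1
      rw [map_one (s j), one_mul (μ j)] at w2
      have n1 : 1 - (μ i)⁻¹ ≠ 0 := by
        intro h
        apply hi1
        rw [sub_eq_zero] at h
        exact inv_eq_one.1 h.symm
      have n2 : 1 - (μ j)⁻¹ ≠ 0 := by
        intro h
        apply hj1
        rw [sub_eq_zero] at h
        exact inv_eq_one.1 h.symm
      have := allp_key hPL hLIM hE (hs i) (hs j) (hFF i j) (hU 1 one_ne_zero) w1 w2 n1 n2
      exact inv_injective (sub_right_injective this)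
    have hC : ∀ i j, μ i ≠ 0 → μ j ≠ 0 → τ i * μ i ≠ 1 → τ j * μ j ≠ 1 →
        τ i * μ i = τ j * μ j := by
      intro i j hi hj hi1 hj1
      have w1 := allp_U (hV i) hi t ht0
      have w2 := allp_U (hV j) hj t ht0
      rw [hst i] at w1
      rw [hst j] at w2
      have n1 : 1 - (τ i * μ i)⁻¹ ≠ 0 := by
        intro h
        apply hi1
        rw [sub_eq_zero] at h
        exact inv_eq_one.1 h.symm
      have n2 : 1 - (τ j * μ j)⁻¹ ≠ 0 := by
        intro h
        apply hj1
        rw [sub_eq_zero] at h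
        exact inv_eq_one.1 h.symm
      have := allp_key hPL hLIM hE (hs i) (hs j) (hFF i j) (hU t ht0) w1 w2 n1 n2
      exact inv_injective (sub_right_injective this)
    classical
    let c : Fin 5 → Fin 4 := fun i =>
      if μ i = 0 then 0 else if μ i = 1 then 1 else if τ i * μ i = 1 then 2 else 3
    have hc : Function.Injective c := by
      intro i j hij
      simp only [c] at hij
      by_cases i0 : μ i = 0
      · by_cases j0 : μ j = 0
        · exact hA i j i0 j0
        · exfalso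
          rw [if_pos i0, if_neg j0] at hij
          exact absurd hij (by split_ifs <;> decide)
      · by_cases j0 : μ j = 0
        · exfalso
          rw [if_neg i0, if_pos j0] at hij
          exact absurd hij (by split_ifs <;> decide)
        · rw [if_neg i0, if_neg j0] at hij
          by_cases i1 : μ i = 1
          · by_cases j1 : μ j = 1
            · apply hinj
              have := hC i j i0 j0 (by rw [i1, mul_one]; exact hτ1 i)
                (by rw [j1, mul_one]; exact hτ1 j)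
              rwa [i1, j1, mul_one, mul_one] at this
            · exfalso
              rw [if_pos i1, if_neg j1] at hij
              exact absurd hij (by split_ifs <;> decide)
          · by_cases j1 : μ j = 1
            · exfalso
              rw [if_neg i1, if_pos j1] at hij
              exact absurd hij (by split_ifs <;> decide)
            · rw [if_neg i1, if_neg j1] at hij
              have e := hB i j i0 j0 i1 j1
              by_cases i2 : τ i * μ i = 1
              · by_cases j2 : τ j * μ j = 1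
                · apply hinj
                  have h3 : τ i * μ i = τ j * μ i := by rw [i2, e, j2]
                  exact mul_right_cancel₀ i0 h3
                · exfalso
                  rw [if_pos i2, if_neg j2] at hij
                  exact absurd hij (by decide)
              · by_cases j2 : τ j * μ j = 1
                · exfalso
                  rw [if_neg i2, if_pos j2] at hij
                  exact absurd hij (by decide)
                · apply hinj
                  have h3 := hC i j i0 j0 i2 j2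
                  rw [← e] at h3
                  exact mul_right_cancel₀ i0 h3
    have := Fintype.card_le_of_injective c hc
    simp at this
  obtain ⟨σ', P', hσ', hFF, hfP'⟩ := step1
  set μ := P.φ ⟨f, hf⟩ with hμ
  have hV : allp_V P f μ := ⟨hf, rfl⟩
  have hσt0 : σ t ≠ 0 := (map_ne_zero σ).2 ht0
  have hσt1 : σ t ≠ 1 := by
    intro h
    exact ht1 (σ.injective (by rw [h, map_one]))
  by_cases h0 : μ = 0
  · rw [h0] at hV
    have w1 := allp_Q hV hf0 t ht0
    have w2 := allp_div (allp_U0 hfP' 1 one_ne_zero) (allp_U0 hfP' t ht0) one_ne_zero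
    rw [div_one] at w2
    exact hσt1 (allp_key hPL hLIM hE hσ hσ' hFF hQ w1 w2 hσt0 one_ne_zero)
  · by_cases h1 : μ = 1
    · have w1 := allp_U hV h0 t ht0
      have w2 := allp_U0 hfP' t ht0
      rw [h1, mul_one] at w1
      have n1 : 1 - (σ t)⁻¹ ≠ 0 := by
        intro h
        apply hσt1
        rw [sub_eq_zero] at h
        exact inv_eq_one.1 h.symm
      have := allp_key hPL hLIM hE hσ hσ' hFF (hU t ht0) w1 w2 n1 one_ne_zero
      rw [sub_eq_self] at this
      exact hσt0 (inv_eq_zero.1 this)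
    · have w1 := allp_U hV h0 1 one_ne_zero
      have w2 := allp_U0 hfP' 1 one_ne_zero
      rw [map_one σ, one_mul μ] at w1
      have n1 : 1 - μ⁻¹ ≠ 0 := by
        intro h
        apply h1
        rw [sub_eq_zero] at h
        exact inv_eq_one.1 h.symm
      have := allp_key hPL hLIM hE hσ hσ' hFF (hU 1 one_ne_zero) w1 w2 n1 one_ne_zero
      rw [sub_eq_self] at this
      exact h0 (inv_eq_zero.1 this)

end Pool.Agent.Helper22.TW
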